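import Pool.Agent.Helper11.PV.St

/-! Project PV (MP_e12aa9_pr), module AEP: almost every `p` (Fatou). -/

set_option autoImplicit false

namespace Pool.Agent.Helper48.PV

open Finset Filter MeasureTheory Pool.Agent.Helper82.CN Pool.Agent.Helper11.PV

private lemma cont_bw (b : Bool) : Continuous (fun p : ℝ => bw p b) := by
  unfold bw
  cases b
  · simp only [Bool.false_eq_true, if_false]; fun_prop
  · simp only [if_true]; fun_prop

private lemma cont_EE {ι : Type} [Fintype ι] [DecidableEq ι] (F : ℝ → (ι → Bool) → ℝ)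
    (hF : ∀ ω, Continuous fun p => F p ω) : Continuous fun p : ℝ => EE p (F p) := by
  unfold EE
  exact continuous_finsetSum _ fun ω _ =>
    (continuous_finsetProd _ fun i _ => cont_bw (ω i)).mul (hF ω)

private lemma cont_vn (n : ℕ) : Continuous fun p : ℝ => vn p n := by
  have h1 : Continuous fun p : ℝ => fn p n := by
    unfold fn
    exact cont_EE (fun _ ω => ch (gr ω)) fun _ => continuous_const
  unfold vn
  exact cont_EE (fun p ω => (ch (gr ω) - fn p n) ^ 2) fun _ => (continuous_const.sub h1).pow 2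

private lemma vn_nonneg {p : ℝ} (h0 : 0 ≤ p) (h1 : p ≤ 1) (n : ℕ) : 0 ≤ vn p n :=
  EE_nonneg h0 h1 fun _ => sq_nonneg _

/-- the normalised variance -/
private noncomputable def gg (n : ℕ) (p : ℝ) : ℝ := vn p n * (Real.log n ^ 3 / n)

private noncomputable def hh (N : ℕ) (p : ℝ) : ℝ := (∑ n ∈ Icc 2 N, gg n p) / N

private lemma cc_nonneg (n : ℕ) : 0 ≤ Real.log n ^ 3 / n :=
  div_nonneg (pow_nonneg (Real.log_natCast_nonneg n) 3) (Nat.cast_nonneg n)

private lemma gg_nonneg {p : ℝ} (h0 : 0 ≤ p) (h1 : p ≤ 1) (n : ℕ) : 0 ≤ gg n p :=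
  mul_nonneg (vn_nonneg h0 h1 n) (cc_nonneg n)

private lemma cont_hh (N : ℕ) : Continuous (hh N) := by
  unfold hh gg
  exact (continuous_finsetSum _ fun n _ => (cont_vn n).mul continuous_const).div_const _

private lemma hh_nonneg {p : ℝ} (h0 : 0 ≤ p) (h1 : p ≤ 1) (N : ℕ) : 0 ≤ hh N p :=
  div_nonneg (Finset.sum_nonneg fun n _ => gg_nonneg h0 h1 n) (Nat.cast_nonneg N)

private lemma int_hh (p₀ p₁ C : ℝ) (h01 : p₀ < p₁) (hC : 0 < C)
    (h : ∀ n : ℕ, 2 ≤ n → ∫ p in p₀..p₁, vn p n ≤ C * (n / Real.log n ^ 3)) (N : ℕ) :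
    ∫ p in Set.Ioc p₀ p₁, hh N p ≤ C := by
  rw [← intervalIntegral.integral_of_le h01.le]
  unfold hh gg
  rw [intervalIntegral.integral_div]
  have hs : ∫ x in p₀..p₁, ∑ n ∈ Icc 2 N, vn x n * (Real.log n ^ 3 / n) =
      ∑ n ∈ Icc 2 N, ∫ x in p₀..p₁, vn x n * (Real.log n ^ 3 / n) := by
    apply intervalIntegral.integral_finsetSum
    intro n _
    have hc : Continuous fun x : ℝ => vn x n * (Real.log n ^ 3 / n) :=
      (cont_vn n).mul continuous_const
    exact hc.intervalIntegrable _ _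
  rw [hs]
  rcases Nat.eq_zero_or_pos N with h0 | h0
  · subst h0; simp; exact hC.le
  have hN : (0 : ℝ) < N := by exact_mod_cast h0
  rw [div_le_iff₀ hN]
  calc ∑ n ∈ Icc 2 N, ∫ p in p₀..p₁, vn p n * (Real.log n ^ 3 / n)
      ≤ ∑ n ∈ Icc 2 N, C := by
        apply Finset.sum_le_sum
        intro n hn
        have h2 : 2 ≤ n := (Finset.mem_Icc.1 hn).1
        rw [intervalIntegral.integral_mul_const]
        have hn0 : (0 : ℝ) < n := by exact_mod_cast (show 0 < n by omega)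
        have hl : 0 < Real.log n := Real.log_pos (by exact_mod_cast (show 1 < n by omega))
        calc (∫ p in p₀..p₁, vn p n) * (Real.log n ^ 3 / n)
            ≤ (C * (n / Real.log n ^ 3)) * (Real.log n ^ 3 / n) :=
              mul_le_mul_of_nonneg_right (h n h2) (cc_nonneg n)
          _ = C := by field_simp
    _ = (Icc 2 N).card * C := by rw [Finset.sum_const, nsmul_eq_mul]
    _ ≤ C * N := by
        rw [mul_comm]
        apply mul_le_mul_of_nonneg_left _ hC.le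
        rw [Nat.card_Icc]
        exact_mod_cast (show N + 1 - 2 ≤ N by omega)

private lemma ae_pair (p₀ p₁ C : ℝ) (h0 : 0 < p₀) (h01 : p₀ < p₁) (h1 : p₁ < 1) (hC : 0 < C)
    (h : ∀ n : ℕ, 2 ≤ n → ∫ p in p₀..p₁, vn p n ≤ C * (n / Real.log n ^ 3)) :
    ∀ᵐ p : ℝ, p ∈ Set.Ioc p₀ p₁ → liminf (fun N : ℕ => ENNReal.ofReal (hh N p)) atTop < ⊤ := by
  rw [← ae_restrict_iff' measurableSet_Ioc]
  have hm : ∀ N : ℕ, Measurable fun p : ℝ => ENNReal.ofReal (hh N p) := fun N =>
    (cont_hh N).measurable.ennreal_ofReal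
  apply ae_lt_top (Measurable.liminf hm)
  apply ne_top_of_le_ne_top (b := ENNReal.ofReal C) ENNReal.ofReal_ne_top
  refine (lintegral_liminf_le hm).trans ?_
  have hle : ∀ N : ℕ, ∫⁻ p in Set.Ioc p₀ p₁, ENNReal.ofReal (hh N p) ≤ ENNReal.ofReal C := by
    intro N
    rw [← ofReal_integral_eq_lintegral_ofReal]
    · exact ENNReal.ofReal_le_ofReal (int_hh p₀ p₁ C h01 hC h N)
    · exact ((cont_hh N).intervalIntegrable p₀ p₁).1
    · refine (ae_restrict_iff' measurableSet_Ioc).2 (Eventually.of_forall fun p hp => ?_)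
      exact hh_nonneg (h0.le.trans hp.1.le) (hp.2.trans h1.le) N
  exact (liminf_le_liminf (Eventually.of_forall hle)).trans (by simp)

private lemma markov (p K ε : ℝ) (h0 : 0 < p) (h1 : p < 1) (hK : 0 < K) (hε : 0 < ε) (N : ℕ)
    (hN : 0 < N) (hh' : hh N p < K) :
    (((Icc 2 N).filter (fun n : ℕ =>
      √(K / ε) * (√(n : ℝ) / Real.log n ^ ((3 : ℝ) / 2)) < sn p n)).card : ℝ) ≤ ε * N := by
  set S := (Icc 2 N).filter (fun n : ℕ =>
      √(K / ε) * (√(n : ℝ) / Real.log n ^ ((3 : ℝ) / 2)) < sn p n) with hS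
  have hNp : (0 : ℝ) < N := by exact_mod_cast hN
  have h2 : ∑ n ∈ Icc 2 N, gg n p < K * N := by
    unfold hh at hh'
    rwa [div_lt_iff₀ hNp] at hh'
  have h3 : ∑ n ∈ S, gg n p ≤ ∑ n ∈ Icc 2 N, gg n p :=
    Finset.sum_le_sum_of_subset_of_nonneg (Finset.filter_subset _ _)
      (fun n _ _ => gg_nonneg h0.le h1.le n)
  have h4 : (S.card : ℝ) * (K / ε) ≤ ∑ n ∈ S, gg n p := by
    rw [← nsmul_eq_mul, ← Finset.sum_const]
    apply Finset.sum_le_sum
    intro n hn
    rw [hS, Finset.mem_filter, Finset.mem_Icc] at hn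
    obtain ⟨⟨hn2, _⟩, hn3⟩ := hn
    have hn0 : (0 : ℝ) < n := by exact_mod_cast (show 0 < n by omega)
    have hl : 0 < Real.log n := Real.log_pos (by exact_mod_cast (show 1 < n by omega))
    have hv := vn_nonneg h0.le h1.le n
    have hsn : sn p n ^ 2 = vn p n := Real.sq_sqrt hv
    have ha : 0 ≤ √(K / ε) * (√(n : ℝ) / Real.log n ^ ((3 : ℝ) / 2)) := by positivity
    have hb : (√(K / ε) * (√(n : ℝ) / Real.log n ^ ((3 : ℝ) / 2))) ^ 2 < vn p n := by
      rw [← hsn]; exact pow_lt_pow_left₀ hn3 ha (by norm_num)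
    have hc : (√(K / ε) * (√(n : ℝ) / Real.log n ^ ((3 : ℝ) / 2))) ^ 2 =
        (K / ε) * (n / Real.log n ^ 3) := by
      rw [mul_pow, div_pow, Real.sq_sqrt (by positivity), Real.sq_sqrt hn0.le]
      congr 2
      rw [← Real.rpow_natCast (Real.log n ^ ((3 : ℝ) / 2)) 2, ← Real.rpow_mul hl.le]
      norm_num
    rw [hc] at hb
    unfold gg
    have hd : 0 < Real.log n ^ 3 / n := by positivity
    calc K / ε = (K / ε) * (n / Real.log n ^ 3) * (Real.log n ^ 3 / n) := by field_simp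
      _ ≤ vn p n * (Real.log n ^ 3 / n) := mul_le_mul_of_nonneg_right hb.le hd.le
  have h5 : (S.card : ℝ) * (K / ε) < K * N := lt_of_le_of_lt (h4.trans h3) h2
  have h6 : (S.card : ℝ) * (K / ε) = K * ((S.card : ℝ) / ε) := by ring
  rw [h6] at h5
  have h7 : (S.card : ℝ) / ε < N := lt_of_mul_lt_mul_left h5 hK.le
  rw [div_lt_iff₀ hε] at h7
  linarith

theorem tAEP (hAVG : StAVG) : Pool.Agent.Helper11.PV.StAEP := by
  unfold StAEP
  have hA : ∀ m : ℕ, ∀ᵐ p : ℝ, p ∈ Set.Ioc (1 / ((m : ℝ) + 3)) (1 - 1 / ((m : ℝ) + 3)) →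
      liminf (fun N : ℕ => ENNReal.ofReal (hh N p)) atTop < ⊤ := by
    intro m
    have hm : (0 : ℝ) < (m : ℝ) + 3 := by positivity
    have hq : 1 / ((m : ℝ) + 3) ≤ 1 / 3 := by
      apply one_div_le_one_div_of_le (by norm_num)
      have : (0 : ℝ) ≤ m := Nat.cast_nonneg m
      linarith
    have hq0 : 0 < 1 / ((m : ℝ) + 3) := by positivity
    obtain ⟨C, hC, h⟩ := hAVG (1 / ((m : ℝ) + 3)) (1 - 1 / ((m : ℝ) + 3)) hq0 (by linarith)
      (by linarith)
    exact ae_pair _ _ C hq0 (by linarith) (by linarith) hC h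
  rw [← ae_all_iff] at hA
  filter_upwards [hA] with p hp h0 h1 ε hε
  have hlim : liminf (fun N : ℕ => ENNReal.ofReal (hh N p)) atTop < ⊤ := by
    obtain ⟨m, hm⟩ := exists_nat_gt (max (1 / p) (1 / (1 - p)))
    have hm1 : 1 / p < m := (le_max_left _ _).trans_lt hm
    have hm2 : 1 / (1 - p) < m := (le_max_right _ _).trans_lt hm
    have h1p : 0 < 1 - p := by linarith
    have hm0 : (0 : ℝ) < (m : ℝ) + 3 := by positivity
    apply hp m
    constructor
    · rw [div_lt_iff₀ h0] at hm1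
      rw [div_lt_iff₀ hm0]
      nlinarith
    · rw [div_lt_iff₀ h1p] at hm2
      have : 1 / ((m : ℝ) + 3) ≤ 1 - p := by
        rw [div_le_iff₀ hm0]
        nlinarith
      linarith
  obtain ⟨K, hK1, hK2⟩ := exists_between hlim
  have hKt : K ≠ ⊤ := hK2.ne
  have hfr := frequently_lt_of_liminf_lt (by isBoundedDefault) hK1
  have hK' : 0 < K.toReal + 1 := by positivity
  refine ⟨√((K.toReal + 1) / ε), ?_⟩
  refine (hfr.and_eventually (eventually_gt_atTop 0)).mono ?_
  rintro N ⟨hN, hN0⟩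
  apply markov p (K.toReal + 1) ε h0 h1 hK' hε N hN0
  have h3 : hh N p ≤ K.toReal := by
    rw [← ENNReal.ofReal_le_ofReal_iff ENNReal.toReal_nonneg, ENNReal.ofReal_toReal hKt]
    exact hN.le
  linarith

end Pool.Agent.Helper48.PV
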