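import Pool.Agent.Helper92.PV.St

/-! # PV MODULE CLS: the number of classes -/

set_option autoImplicit false
set_option linter.unusedVariables false

open Finset

noncomputable section

namespace Pool.Agent.Helper48.PV

open Pool.Agent.Helper92.PV Pool.Agent.Helper92.PU Pool.Agent.Helper92.PW

section

variable {F : Type} [Field F] [DecidableEq F]

/-- first nonzero coordinate -/
def fc (v : Fin 3 → F) : F := if v 0 ≠ 0 then v 0 else if v 1 ≠ 0 then v 1 else v 2

theorem fc_smul (c : F) (hc : c ≠ 0) (v : Fin 3 → F) : fc (c • v) = c * fc v := by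
  unfold fc
  simp only [Pi.smul_apply, smul_eq_mul, ne_eq, mul_eq_zero, hc, false_or]
  split_ifs <;> rfl

theorem fc_ne {v : Fin 3 → F} (h : ∃ m, v m ≠ 0) : fc v ≠ 0 := by
  unfold fc
  split_ifs with h0 h1
  · exact h0
  · exact h1
  · obtain ⟨m, hm⟩ := h
    push Not at h0 h1
    fin_cases m
    · exact absurd h0 hm
    · exact absurd h1 hm
    · exact hm

/-- normalised vector -/
def nrm (v : Fin 3 → F) : Fin 3 → F := (fc v)⁻¹ • v

theorem fc_nrm {v : Fin 3 → F} (h : ∃ m, v m ≠ 0) : fc (nrm v) = 1 := by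
  have h1 := fc_ne h
  unfold nrm
  rw [fc_smul _ (inv_ne_zero h1), inv_mul_cancel₀ h1]

theorem nrm_spec {v : Fin 3 → F} (h : ∃ m, v m ≠ 0) : v = fc v • nrm v := by
  have h1 := fc_ne h
  unfold nrm
  rw [smul_smul, mul_inv_cancel₀ h1, one_smul]

theorem eval_smul' {g : MvPolynomial (Fin 3) F} {d : ℕ} (hg : g.IsHomogeneous d) (c : F)
    (v : Fin 3 → F) : MvPolynomial.eval (c • v) g = c ^ d * MvPolynomial.eval v g := by
  rw [MvPolynomial.eval_eq', MvPolynomial.eval_eq', Finset.mul_sum]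
  apply Finset.sum_congr rfl
  intro s hs
  have h1 : s 0 + s 1 + s 2 = d := by
    have h := hg (MvPolynomial.mem_support_iff.1 hs)
    rw [Finsupp.weight_apply, Finsupp.sum_fintype _ _ (fun i => by simp)] at h
    simp [Fin.sum_univ_three] at h
    exact h
  simp only [Fin.prod_univ_three, Pi.smul_apply, smul_eq_mul, mul_pow]
  rw [← h1, pow_add, pow_add]
  ring

end

theorem hCLS : StCLS := by
  intro P d G hP hd hG hGs S hS
  haveI : Fact P.Prime := ⟨hP⟩
  classical
  set g : MvPolynomial (Fin 3) (ZMod P) := MvPolynomial.map (Int.castRingHom (ZMod P)) G with hgdef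
  have hg0 : g ≠ 0 := by
    obtain ⟨s, hs⟩ := hGs
    intro h
    apply hs
    have h1 : MvPolynomial.coeff s g = 0 := by rw [h, MvPolynomial.coeff_zero]
    rw [hgdef, MvPolynomial.coeff_map] at h1
    exact (ZMod.intCast_zmod_eq_zero_iff_dvd _ P).1 (by simpa using h1)
  have hgh : g.IsHomogeneous d := hG.map _
  have hgd : g.totalDegree ≤ d := hgh.totalDegree_le
  let cv : Pt → Fin 3 → ZMod P := fun p m => ((vec p m : ℤ) : ZMod P)
  have hev : ∀ p, MvPolynomial.eval (cv p) g = ((vl G p : ℤ) : ZMod P) := by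
    intro p
    have h := MvPolynomial.eval₂_comp_left (Int.castRingHom (ZMod P)) (RingHom.id ℤ) (vec p) G
    have h2 : MvPolynomial.eval (cv p) g =
        MvPolynomial.eval₂ (Int.castRingHom (ZMod P)) (cv p) G := by
      rw [hgdef, MvPolynomial.eval_map]
    rw [h2]
    unfold vl
    rw [MvPolynomial.eval, MvPolynomial.coe_eval₂Hom]
    have h3 : ((MvPolynomial.eval₂ (RingHom.id ℤ) (vec p) G : ℤ) : ZMod P) =
        (Int.castRingHom (ZMod P)) (MvPolynomial.eval₂ (RingHom.id ℤ) (vec p) G) := rfl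
    rw [h3, h]
    rfl
  let Zr : Finset (Fin 3 → ZMod P) := Finset.univ.filter fun v => MvPolynomial.eval v g = 0
  have hZr : Zr.card ≤ d * P ^ 2 := by
    have h := MvPolynomial.schwartz_zippel_totalDegree hg0 (Finset.univ : Finset (ZMod P))
    rw [Fintype.piFinset_univ, Finset.card_univ, ZMod.card] at h
    have hP0 : (0 : ℚ≥0) < (P : ℚ≥0) := by exact_mod_cast hP.pos
    rw [div_le_div_iff₀ (by positivity) hP0] at h
    have h2 : (Zr.card : ℚ≥0) * P ≤ (d * P ^ 2 : ℕ) * P := by
      refine h.trans ?_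
      push_cast
      have : (g.totalDegree : ℚ≥0) ≤ d := by exact_mod_cast hgd
      calc (g.totalDegree : ℚ≥0) * (P : ℚ≥0) ^ 3 ≤ d * (P : ℚ≥0) ^ 3 := by gcongr
        _ = d * (P : ℚ≥0) ^ 2 * P := by ring
    have h3 : (Zr.card : ℚ≥0) ≤ (d * P ^ 2 : ℕ) := le_of_mul_le_mul_right h2 hP0
    exact_mod_cast h3
  let I : Finset (Fin 3 → ZMod P) := S.image fun p => nrm (cv p)
  have hne : ∀ p ∈ S, ∃ m, cv p m ≠ 0 := by
    intro p hp
    obtain ⟨-, m, hm⟩ := hS p hp
    refine ⟨m, fun h => hm ?_⟩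
    exact (ZMod.intCast_zmod_eq_zero_iff_dvd _ P).1 h
  refine ⟨I, fun p => nrm (cv p), ?_, ?_, ?_⟩
  · -- the count
    have hI1 : ∀ v ∈ I, fc v = 1 := by
      intro v hv
      obtain ⟨p, hp, rfl⟩ := Finset.mem_image.1 hv
      exact fc_nrm (hne p hp)
    have hI2 : ∀ v ∈ I, MvPolynomial.eval v g = 0 := by
      intro v hv
      obtain ⟨p, hp, rfl⟩ := Finset.mem_image.1 hv
      unfold nrm
      rw [eval_smul' hgh, hev, (hS p hp).1]
      simp
    let J : Finset (ZMod P) := Finset.univ.erase 0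
    have hJ : J.card = P - 1 := by
      rw [Finset.card_erase_of_mem (Finset.mem_univ _), Finset.card_univ, ZMod.card]
    have hle : (I ×ˢ J).card ≤ Zr.card := by
      apply Finset.card_le_card_of_injOn (fun x => x.2 • x.1)
      · rintro ⟨v, c⟩ hx
        rw [Finset.mem_coe, Finset.mem_product] at hx
        simp only [Finset.coe_filter, Finset.mem_univ, true_and, Set.mem_setOf_eq, Zr]
        show MvPolynomial.eval (c • v) g = 0
        rw [eval_smul' hgh, hI2 v hx.1, mul_zero]
      · rintro ⟨v, c⟩ hx ⟨v', c'⟩ hx' h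
        rw [Finset.mem_coe, Finset.mem_product] at hx hx'
        have hc : c ≠ 0 := (Finset.mem_erase.1 hx.2).1
        have hc' : c' ≠ 0 := (Finset.mem_erase.1 hx'.2).1
        have h1 : c • v = c' • v' := h
        have h2 : fc (c • v) = fc (c' • v') := by rw [h1]
        rw [fc_smul c hc, fc_smul c' hc', hI1 v hx.1, hI1 v' hx'.1, mul_one, mul_one] at h2
        subst h2
        have h3 : v = v' := smul_right_injective _ hc h1
        rw [h3]
    rw [Finset.card_product, hJ] at hle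
    have h2 := hP.two_le
    have h3 : I.card * (P - 1) ≤ 2 * d * P * (P - 1) := by
      refine (hle.trans hZr).trans ?_
      have h4 : P ≤ 2 * (P - 1) := by omega
      calc d * P ^ 2 = d * P * P := by ring
        _ ≤ d * P * (2 * (P - 1)) := Nat.mul_le_mul_left _ h4
        _ = 2 * d * P * (P - 1) := by ring
    exact Nat.le_of_mul_le_mul_right h3 (by omega)
  · intro p hp
    exact Finset.mem_image_of_mem _ hp
  · intro p hp q hq h
    have hp1 := nrm_spec (hne p hp)
    have hq1 := nrm_spec (hne q hq)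
    have h' : nrm (cv p) = nrm (cv q) := h
    rw [h'] at hp1
    generalize fc (cv p) = α at hp1
    generalize fc (cv q) = β at hq1
    generalize nrm (cv q) = n at hp1 hq1
    have e : ∀ m, ((vec p m : ℤ) : ZMod P) = α * n m := fun m => congrFun hp1 m
    have e' : ∀ m, ((vec q m : ℤ) : ZMod P) = β * n m := fun m => congrFun hq1 m
    have p0 : ((p.1 : ℤ) : ZMod P) = α * n 0 := e 0
    have p1 : ((p.2.1 : ℤ) : ZMod P) = α * n 1 := e 1
    have p2 : ((p.2.2 : ℤ) : ZMod P) = α * n 2 := e 2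
    have q0 : ((q.1 : ℤ) : ZMod P) = β * n 0 := e' 0
    have q1 : ((q.2.1 : ℤ) : ZMod P) = β * n 1 := e' 1
    have q2 : ((q.2.2 : ℤ) : ZMod P) = β * n 2 := e' 2
    refine ⟨?_, ?_, ?_⟩
    · rw [← ZMod.intCast_zmod_eq_zero_iff_dvd]
      show ((p.2.1 * q.2.2 - p.2.2 * q.2.1 : ℤ) : ZMod P) = 0
      push_cast
      rw [p1, p2, q1, q2]
      ring
    · rw [← ZMod.intCast_zmod_eq_zero_iff_dvd]
      show ((p.2.2 * q.1 - p.1 * q.2.2 : ℤ) : ZMod P) = 0
      push_cast
      rw [p0, p2, q0, q2]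
      ring
    · rw [← ZMod.intCast_zmod_eq_zero_iff_dvd]
      show ((p.1 * q.2.1 - p.2.1 * q.1 : ℤ) : ZMod P) = 0
      push_cast
      rw [p0, p1, q0, q1]
      ring

end Pool.Agent.Helper48.PV
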